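import Pool.Agent.R659.BentAffine

set_option autoImplicit false

open Finset

/-! # Degrees of the derivatives of homogeneous (bent) functions

Every nonzero derivative of a homogeneous Boolean function of degree `k` has degree `k - 2 ^ j` for
some `j`; for a homogeneous bent function the derivative in every nonzero direction has degree
`k - 2 ^ j ≥ 1`.  Hence the question, asked for the bent functions which have an affine derivative in
some nonzero direction, has a positive answer exactly for `k = 2 ^ a + 1`. -/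

namespace Pool.Agent.Results.MP_47443c_co.DerivativeDegrees

/-- the Boolean function whose algebraic normal form has the monomials `∏_{i ∈ s} x_i`, `s ∈ S` -/
def anf {n : ℕ} (S : Finset (Finset (Fin n))) (x : Fin n → ZMod 2) : ZMod 2 :=
  ∑ s ∈ S, ∏ i ∈ s, x i

/-- the function with monomial set `S` is bent -/
def Bent {n : ℕ} (S : Finset (Finset (Fin n))) : Prop :=
  ∀ c : Fin n → ZMod 2,
    (∑ x : Fin n → ZMod 2, (-1 : ℤ) ^ (ZMod.val (anf S x + ∑ i : Fin n, c i * x i))) ^ 2 = 2 ^ n

/-- the monomials of the derivative of `anf S` in direction `a` have set `R`, and its degree is `e` -/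
def DerivDegree {n : ℕ} (S : Finset (Finset (Fin n))) (a : Fin n → ZMod 2)
    (R : Finset (Finset (Fin n))) (e : ℕ) : Prop :=
  (∀ x : Fin n → ZMod 2, anf S (x + a) + anf S x = anf R x) ∧
    (∀ U ∈ R, U.card ≤ e) ∧ ∃ U ∈ R, U.card = e

/-- some derivative in a nonzero direction is an affine function -/
def HasAffineDerivative {n : ℕ} (S : Finset (Finset (Fin n))) : Prop :=
  ∃ u : Fin n → ZMod 2, u ≠ 0 ∧ ∃ (l : (Fin n → ZMod 2) →ₗ[ZMod 2] ZMod 2) (b : ZMod 2),
    ∀ x : Fin n → ZMod 2, anf S (x + u) + anf S x = l x + b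

theorem pow_two_of_choose : ∀ m : ℕ, 0 < m → (∀ u, 0 < u → u < m → 2 ∣ m.choose u) →
    ∃ j, m = 2 ^ j := by
  intro m
  induction m using Nat.strong_induction_on with
  | _ m ih =>
    intro hm h
    rcases Nat.lt_or_ge m 2 with h1 | h1
    · exact ⟨0, by rw [pow_zero]; omega⟩
    · have h2 := h 1 one_pos (by omega)
      rw [Nat.choose_one_right] at h2
      obtain ⟨m', rfl⟩ := h2
      obtain ⟨j, hj⟩ := ih m' (by omega) (by omega) (fun u hu hum => by
        have h3 := h (2 * u) (by omega) (by omega)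
        have : Fact (Nat.Prime 2) := ⟨Nat.prime_two⟩
        have h4 := Choose.choose_modEq_choose_mod_mul_choose_div_nat (n := 2 * m') (k := 2 * u)
          (p := 2)
        rw [Nat.mul_mod_right, Nat.mul_mod_right, Nat.choose_self, one_mul,
          Nat.mul_div_cancel_left _ two_pos, Nat.mul_div_cancel_left _ two_pos] at h4
        exact (Nat.modEq_zero_iff_dvd.1 (h4.symm.trans (Nat.modEq_zero_iff_dvd.2 h3))))
      exact ⟨j + 1, by rw [hj, pow_succ]; ring⟩

section coef

variable {n : ℕ}

/-- indicator vector -/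
def ind (V : Finset (Fin n)) : Fin n → ZMod 2 := fun i => if i ∈ V then 1 else 0

theorem prod_ind (t V : Finset (Fin n)) : ∏ i ∈ t, ind V i = if t ⊆ V then 1 else 0 := by
  split_ifs with h
  · exact prod_eq_one fun i hi => by simp [ind, h hi]
  · obtain ⟨i, hi, hiV⟩ := not_subset.1 h
    exact prod_eq_zero hi (by simp [ind, hiV])

/-- coefficient of the monomial `U` -/
theorem coef_mono (t U : Finset (Fin n)) :
    ∑ V ∈ U.powerset, ∏ i ∈ t, ind V i = if t = U then (1 : ZMod 2) else 0 := by
  simp only [prod_ind]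
  rw [← sum_filter, sum_const, nsmul_eq_mul, mul_one]
  by_cases h : t ⊆ U
  · have e : (U.powerset.filter fun V => t ⊆ V) = Icc t U := by
      ext V
      simp only [mem_filter, mem_powerset, mem_Icc]
      tauto
    rw [e, card_Icc_finset h]
    split_ifs with h1
    · rw [h1]; simp
    · have h2 : t.card < U.card := card_lt_card (lt_of_le_of_ne h h1)
      obtain ⟨d, hd⟩ : ∃ d, U.card - t.card = d + 1 := ⟨U.card - t.card - 1, by omega⟩
      rw [hd, pow_succ]
      push_cast
      have : (2 : ZMod 2) = 0 := by decide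
      rw [this, mul_zero]
  · have e : (U.powerset.filter fun V => t ⊆ V) = ∅ := by
      rw [filter_eq_empty_iff]
      intro V hV hV2
      exact h (hV2.trans (mem_powerset.1 hV))
    rw [e, card_empty, Nat.cast_zero, if_neg]
    rintro rfl
    exact h Subset.rfl

theorem coef_anf (R : Finset (Finset (Fin n))) (U : Finset (Fin n)) :
    ∑ V ∈ U.powerset, anf R (ind V) = if U ∈ R then (1 : ZMod 2) else 0 := by
  simp only [anf]
  rw [sum_comm]
  simp only [coef_mono]
  rw [sum_ite_eq']

open Classical in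
/-- the monomials `s ∈ S` contributing to the coefficient of `U` in the derivative -/
noncomputable def lk (S : Finset (Finset (Fin n))) (a : Fin n → ZMod 2) (U : Finset (Fin n)) :
    Finset (Finset (Fin n)) :=
  S.filter fun s => U ⊂ s ∧ ∀ i ∈ s \ U, a i = 1

theorem mem_lk {S : Finset (Finset (Fin n))} {a : Fin n → ZMod 2} {U s : Finset (Fin n)} :
    s ∈ lk S a U ↔ s ∈ S ∧ U ⊂ s ∧ ∀ i ∈ s \ U, a i = 1 := by
  simp [lk]

theorem prod_a (a : Fin n → ZMod 2) (T : Finset (Fin n)) [Decidable (∀ i ∈ T, a i = 1)] :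
    ∏ i ∈ T, a i = if ∀ i ∈ T, a i = 1 then 1 else 0 := by
  split_ifs with h
  · exact prod_eq_one h
  · push Not at h
    obtain ⟨i, hi, h1⟩ := h
    have h2 : ∀ b : ZMod 2, b ≠ 1 → b = 0 := by decide
    exact prod_eq_zero hi (h2 _ h1)

theorem deriv_eq (S : Finset (Finset (Fin n))) (a x : Fin n → ZMod 2) :
    anf S (x + a) + anf S x =
      ∑ s ∈ S, ∑ t ∈ s.ssubsets, (∏ i ∈ t, x i) * ∏ i ∈ s \ t, a i := by
  simp only [anf]
  rw [← sum_add_distrib]
  refine sum_congr rfl fun s _ => ?_
  simp only [Pi.add_apply]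
  rw [prod_add, ssubsets, ← add_sum_erase s.powerset _ (mem_powerset_self s), sdiff_self]
  have h2 : ∀ b : ZMod 2, b + b = 0 := by decide
  have := h2 (∏ i ∈ s, x i)
  simp only [prod_empty, mul_one, Finset.bot_eq_empty]
  linear_combination this

theorem deriv_eq' (S : Finset (Finset (Fin n))) (a x : Fin n → ZMod 2) :
    anf S (x + a) + anf S x =
      ∑ U : Finset (Fin n), ((lk S a U).card : ZMod 2) * ∏ i ∈ U, x i := by
  classical
  rw [deriv_eq]
  have e : ∀ s : Finset (Fin n), ∑ t ∈ s.ssubsets, (∏ i ∈ t, x i) * ∏ i ∈ s \ t, a i =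
      ∑ t : Finset (Fin n), if t ⊂ s ∧ ∀ i ∈ s \ t, a i = 1 then ∏ i ∈ t, x i else 0 := by
    intro s
    rw [← sum_filter, filter_and]
    have e1 : (univ.filter fun t : Finset (Fin n) => t ⊂ s) = s.ssubsets := by
      ext t; simp
    have e2 : ((univ.filter fun t : Finset (Fin n) => t ⊂ s) ∩
        univ.filter fun t : Finset (Fin n) => ∀ i ∈ s \ t, a i = 1) =
        s.ssubsets.filter fun t => ∀ i ∈ s \ t, a i = 1 := by
      ext t; simp
    rw [e2, sum_filter]
    refine sum_congr rfl fun t _ => ?_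
    rw [prod_a a (s \ t)]
    split_ifs <;> simp
  simp only [e]
  rw [sum_comm]
  refine sum_congr rfl fun U _ => ?_
  rw [← sum_filter, sum_const, nsmul_eq_mul]
  congr 2

theorem lk_card (S : Finset (Finset (Fin n))) (a : Fin n → ZMod 2) (R : Finset (Finset (Fin n)))
    (h : ∀ x : Fin n → ZMod 2, anf S (x + a) + anf S x = anf R x) (U : Finset (Fin n)) :
    ((lk S a U).card : ZMod 2) = if U ∈ R then 1 else 0 := by
  rw [← coef_anf R U]
  simp only [← h, deriv_eq']
  rw [sum_comm]
  simp only [← mul_sum, coef_mono]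
  simp

end coef

theorem partA {n k : ℕ} {S : Finset (Finset (Fin n))} (hS : ∀ s ∈ S, s.card = k)
    {a : Fin n → ZMod 2} {R : Finset (Finset (Fin n))} {e : ℕ} (h : DerivDegree S a R e) :
    ∃ j, e + 2 ^ j = k := by
  classical
  obtain ⟨h1, h2, U, hU, hUe⟩ := h
  have h3 := lk_card S a R h1
  have hH := h3 U
  rw [if_pos hU] at hH
  have hne : (lk S a U).Nonempty := by
    rw [nonempty_iff_ne_empty]
    intro h0
    rw [h0] at hH
    simp at hH
  obtain ⟨s0, hs0⟩ := hne
  rw [mem_lk] at hs0
  have hek : e < k := by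
    rw [← hUe, ← hS s0 hs0.1]
    exact card_lt_card hs0.2.1
  obtain ⟨j, hj⟩ := pow_two_of_choose (k - e) (by omega) (fun u hu hum => by
    -- double counting
    have key : ∑ s ∈ lk S a U, ∑ W ∈ powersetCard u Uᶜ, (if W ⊆ s \ U then (1 : ZMod 2) else 0) =
        0 := by
      rw [sum_comm]
      refine sum_eq_zero fun W hW => ?_
      rw [mem_powersetCard] at hW
      obtain ⟨hW1, hW2⟩ := hW
      rw [← sum_filter, sum_const, nsmul_eq_mul, mul_one]
      have hdisj : Disjoint U W := by
        rw [disjoint_left]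
        intro i hi hiW
        exact (mem_compl.1 (hW1 hiW)) hi
      have hcard : (U ∪ W).card = e + u := by rw [card_union_of_disjoint hdisj, hUe, hW2]
      by_cases haW : ∀ i ∈ W, a i = 1
      · have e1 : (lk S a U).filter (fun s => W ⊆ s \ U) = lk S a (U ∪ W) := by
          ext s
          rw [mem_filter, mem_lk, mem_lk]
          constructor
          · rintro ⟨⟨hs, hUs, hsa⟩, hWs⟩
            have hsub : U ∪ W ⊆ s := union_subset hUs.1 (hWs.trans sdiff_subset)
            refine ⟨hs, (ssubset_iff_subset_ne).2 ⟨hsub, ?_⟩, fun i hi => ?_⟩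
            · rintro rfl
              have := hS _ hs
              omega
            · rw [mem_sdiff, mem_union, not_or] at hi
              exact hsa i (mem_sdiff.2 ⟨hi.1, hi.2.1⟩)
          · rintro ⟨hs, hUs, hsa⟩
            have hsub : U ∪ W ⊆ s := hUs.1
            refine ⟨⟨hs, (ssubset_iff_subset_ne).2 ⟨subset_union_left.trans hsub, ?_⟩,
              fun i hi => ?_⟩, fun i hi => ?_⟩
            · rintro rfl
              have := hS _ hs
              omega
            · by_cases hiW : i ∈ W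
              · exact haW i hiW
              · rw [mem_sdiff] at hi
                exact hsa i (mem_sdiff.2 ⟨hi.1, by rw [mem_union, not_or]; exact ⟨hi.2, hiW⟩⟩)
            · exact mem_sdiff.2 ⟨hsub (mem_union_right _ hi), fun hiU =>
                (disjoint_left.1 hdisj) hiU hi⟩
        rw [e1, h3, if_neg]
        intro hR
        have := h2 _ hR
        omega
      · push Not at haW
        obtain ⟨i, hi, hai⟩ := haW
        have e1 : (lk S a U).filter (fun s => W ⊆ s \ U) = ∅ := by
          rw [filter_eq_empty_iff]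
          intro s hs hWs
          rw [mem_lk] at hs
          exact hai (hs.2.2 i (hWs hi))
        rw [e1, card_empty, Nat.cast_zero]
    have inner : ∀ s ∈ lk S a U, ∑ W ∈ powersetCard u Uᶜ,
        (if W ⊆ s \ U then (1 : ZMod 2) else 0) = ((k - e).choose u : ℕ) := by
      intro s hs
      rw [mem_lk] at hs
      rw [← sum_filter, sum_const, nsmul_eq_mul, mul_one]
      have e1 : (powersetCard u Uᶜ).filter (fun W => W ⊆ s \ U) = powersetCard u (s \ U) := by
        ext W
        rw [mem_filter, mem_powersetCard, mem_powersetCard]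
        constructor
        · rintro ⟨⟨_, h5⟩, h6⟩
          exact ⟨h6, h5⟩
        · rintro ⟨h6, h5⟩
          refine ⟨⟨fun i hi => ?_, h5⟩, h6⟩
          exact mem_compl.2 (mem_sdiff.1 (h6 hi)).2
      rw [e1, card_powersetCard, card_sdiff_of_subset hs.2.1.1, hS s hs.1, hUe]
    rw [sum_congr rfl inner, sum_const, nsmul_eq_mul, hH, one_mul] at key
    exact (ZMod.natCast_eq_zero_iff _ _).1 key)
  exact ⟨j, by omega⟩

theorem exists_R {n : ℕ} (S : Finset (Finset (Fin n))) (a : Fin n → ZMod 2) :
    ∃ R : Finset (Finset (Fin n)), ∀ x : Fin n → ZMod 2, anf S (x + a) + anf S x = anf R x := by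
  classical
  refine ⟨univ.filter fun U => ((lk S a U).card : ZMod 2) = 1, fun x => ?_⟩
  rw [deriv_eq', anf, sum_filter]
  refine sum_congr rfl fun U _ => ?_
  have h2 : ∀ b : ZMod 2, b = 0 ∨ b = 1 := by decide
  rcases h2 ((lk S a U).card : ZMod 2) with h | h
  · rw [h]; simp
  · rw [h]; simp

theorem nonconst {n : ℕ} {S : Finset (Finset (Fin n))} (hb : Bent S) {a : Fin n → ZMod 2}
    (ha : a ≠ 0) (b : ZMod 2) : ¬ ∀ x : Fin n → ZMod 2, anf S (x + a) + anf S x = b := by
  intro h
  obtain ⟨i, hi⟩ : ∃ i, a i ≠ 0 := by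
    by_contra h0
    push Not at h0
    exact ha (funext h0)
  have h1 : ∀ b : ZMod 2, b ≠ 0 → b = 1 := by decide
  have hi1 := h1 _ hi
  let c : Fin n → ZMod 2 := fun j => if j = i then b + 1 else 0
  have hc : ∑ j, c j * a j = b + 1 := by
    simp only [c, ite_mul, zero_mul]
    rw [sum_ite_eq']
    simp [hi1]
  have hW := hb c
  have e : (∑ x : Fin n → ZMod 2, (-1 : ℤ) ^ (ZMod.val (anf S x + ∑ i : Fin n, c i * x i))) =
      - ∑ x : Fin n → ZMod 2, (-1 : ℤ) ^ (ZMod.val (anf S x + ∑ i : Fin n, c i * x i)) := by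
    rw [← sum_neg_distrib]
    refine ((Fintype.sum_equiv (Equiv.addRight a) _ _ fun x => ?_)).symm
    rw [Equiv.coe_addRight]
    symm
    have e1 : anf S (x + a) + ∑ i, c i * (x + a) i = anf S x + ∑ i, c i * x i + 1 := by
      have h3 := h x
      simp only [Pi.add_apply, mul_add, sum_add_distrib, hc]
      have h4 : ∀ b : ZMod 2, b + b = 0 := by decide
      have h5 := h4 (anf S x)
      have h6 := h4 b
      linear_combination h3 - h5 + h6
    rw [e1]
    have h7 : ∀ b : ZMod 2, (-1 : ℤ) ^ ZMod.val (b + 1) = - (-1 : ℤ) ^ ZMod.val b := by decide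
    exact h7 _
  have e0 : (∑ x : Fin n → ZMod 2, (-1 : ℤ) ^ (ZMod.val (anf S x + ∑ i : Fin n, c i * x i))) = 0 := by
    linarith
  rw [e0] at hW
  have : (0 : ℤ) < 2 ^ n := by positivity
  rw [zero_pow two_ne_zero] at hW
  omega

theorem affine_R {n : ℕ} (l : (Fin n → ZMod 2) →ₗ[ZMod 2] ZMod 2) (b : ZMod 2) :
    ∃ R : Finset (Finset (Fin n)), (∀ x, l x + b = anf R x) ∧ ∀ U ∈ R, U.card ≤ 1 := by
  classical
  let T : Finset (Fin n) := univ.filter fun i => l (fun j => if i = j then 1 else 0) = 1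
  let R1 : Finset (Finset (Fin n)) := T.map ⟨fun i => {i}, fun i j h => by simpa using h⟩
  have h1 : ∀ x, l x = anf R1 x := by
    intro x
    rw [LinearMap.pi_apply_eq_sum_univ l x, anf, sum_map, sum_filter]
    refine sum_congr rfl fun i _ => ?_
    have h2 : ∀ b : ZMod 2, b = 0 ∨ b = 1 := by decide
    rcases h2 (l (fun j => if i = j then 1 else 0)) with h | h
    · rw [h]; simp
    · rw [h, if_pos rfl, smul_eq_mul, mul_one]
      exact (prod_singleton _ _).symm
  have hc : ∀ U ∈ R1, U.card = 1 := by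
    intro U hU
    rw [mem_map] at hU
    obtain ⟨i, _, rfl⟩ := hU
    exact card_singleton i
  have h2 : ∀ b : ZMod 2, b = 0 ∨ b = 1 := by decide
  rcases h2 b with rfl | rfl
  · exact ⟨R1, fun x => by rw [add_zero]; exact h1 x, fun U hU => (hc U hU).le⟩
  · refine ⟨insert ∅ R1, fun x => ?_, fun U hU => ?_⟩
    · have hn : (∅ : Finset (Fin n)) ∉ R1 := fun h => by
        have := hc _ h
        simp at this
      rw [h1 x, anf, anf, sum_insert hn, prod_empty, add_comm]
    · rw [mem_insert] at hU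
      rcases hU with rfl | hU
      · simp
      · exact (hc U hU).le

theorem affine_pow {n k : ℕ} {S : Finset (Finset (Fin n))} (hS : ∀ s ∈ S, s.card = k)
    (hb : Bent S) (ha : HasAffineDerivative S) : ∃ j, k = 2 ^ j + 1 := by
  classical
  obtain ⟨u, hu, l, b, h⟩ := ha
  obtain ⟨R, hR, hR1⟩ := affine_R l b
  have hder : ∀ x : Fin n → ZMod 2, anf S (x + u) + anf S x = anf R x := fun x => by
    rw [h x, hR x]
  have hex : ∃ U ∈ R, U.card = 1 := by
    by_contra h0
    push Not at h0
    have hsub : R ⊆ {∅} := by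
      intro U hU
      have h1 := h0 U hU
      have h2 := hR1 U hU
      rw [mem_singleton]
      exact card_eq_zero.1 (by omega)
    rcases subset_singleton_iff.1 hsub with rfl | rfl
    · exact nonconst hb hu 0 fun x => by rw [hder x]; simp [anf]
    · exact nonconst hb hu 1 fun x => by rw [hder x]; simp [anf]
  obtain ⟨j, hj⟩ := partA hS (a := u) (R := R) (e := 1) ⟨hder, hR1, hex⟩
  exact ⟨j, by omega⟩

theorem exists_affine (a : ℕ) : ∃ N : ℕ, 2 ≤ N ∧ ∀ n : ℕ, N < n → Even n →
    ∃ S : Finset (Finset (Fin n)), (∀ s ∈ S, s.card = 2 ^ a + 1) ∧ Bent S ∧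
      HasAffineDerivative S := by
  obtain ⟨N, hN⟩ := Pool.Agent.R659.BentAffine.exists_bent_affine a
  refine ⟨2 * N + 2, by omega, fun n hn hev => ?_⟩
  obtain ⟨m, rfl⟩ := hev
  have hm : N < m := by omega
  have : NeZero m := ⟨by omega⟩
  obtain ⟨S, hS, hb, u, hu, l, hl⟩ := hN m hm this
  have hcard : Fintype.card (ZMod m ⊕ ZMod m) = m + m := by
    rw [Fintype.card_sum, ZMod.card]
  let e : ZMod m ⊕ ZMod m ≃ Fin (m + m) := Fintype.equivFinOfCardEq hcard
  have hF : ∀ x : Fin (m + m) → ZMod 2,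
      anf (S.map (Finset.mapEmbedding e.toEmbedding).toEmbedding) x =
        ∑ s ∈ S, ∏ i ∈ s, x (e i) := by
    intro x
    rw [anf, sum_map]
    refine sum_congr rfl fun s _ => ?_
    show ∏ i ∈ s.map e.toEmbedding, x i = _
    rw [prod_map]
    rfl
  refine ⟨S.map (Finset.mapEmbedding e.toEmbedding).toEmbedding, ?_, ?_, ?_⟩
  · intro s hs
    rw [mem_map] at hs
    obtain ⟨t, ht, rfl⟩ := hs
    show (t.map e.toEmbedding).card = _
    rw [card_map]
    exact hS t ht
  · intro c
    have h1 := hb (fun i => c (e i))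
    have h2 : (2 : ℤ) ^ (m + m) = 2 ^ (2 * m) := by rw [two_mul]
    rw [h2, ← h1]
    congr 1
    refine (Fintype.sum_equiv (Equiv.arrowCongr e.symm (Equiv.refl (ZMod 2))) _ _ fun x => ?_)
    show _ = Pool.Agent.H273R2.Bent.chi _
    rw [Pool.Agent.H273R2.Bent.chi]
    congr 3
    · rw [hF]
      rfl
    · rw [← e.sum_comp]
      rfl
  · refine ⟨fun i => u (e.symm i), ?_, l.comp (LinearMap.funLeft (ZMod 2) (ZMod 2) e), 0,
      fun x => ?_⟩
    · intro h0
      apply hu
      ext i
      have := congrFun h0 (e i)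
      simpa using this
    · rw [hF, hF, add_zero]
      have h3 := hl (fun i => x (e i))
      have e1 : ∀ i, (x + fun i => u (e.symm i)) (e i) = ((fun i => x (e i)) + u) i := by
        intro i
        simp
      simp only [e1]
      exact h3

theorem result :
    -- every nonzero derivative of a homogeneous function of degree `k` has degree `k - 2 ^ j`
    (∀ (n k : ℕ) (S : Finset (Finset (Fin n))), (∀ s ∈ S, s.card = k) →
      ∀ (a : Fin n → ZMod 2) (R : Finset (Finset (Fin n))) (e : ℕ),
        DerivDegree S a R e → ∃ j : ℕ, e + 2 ^ j = k) ∧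
    -- for a bent one all derivatives in nonzero directions have such a degree, and it is at least `1`
    (∀ (n k : ℕ) (S : Finset (Finset (Fin n))), (∀ s ∈ S, s.card = k) → Bent S →
      ∀ a : Fin n → ZMod 2, a ≠ 0 →
        ∃ (R : Finset (Finset (Fin n))) (e j : ℕ), DerivDegree S a R e ∧ 1 ≤ e ∧ e + 2 ^ j = k) ∧
    -- the question for the bent functions with an affine derivative
    (∀ k : ℕ, (∃ a : ℕ, k = 2 ^ a + 1) ↔
      ∃ N : ℕ, 2 ≤ N ∧ ∀ n : ℕ, N < n → Even n → ∃ S : Finset (Finset (Fin n)),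
        (∀ s ∈ S, s.card = k) ∧ Bent S ∧ HasAffineDerivative S) ∧
    (∀ k : ℕ, (∃ a : ℕ, k = 2 ^ a + 1) ↔
      ∃ (n : ℕ) (S : Finset (Finset (Fin n))),
        (∀ s ∈ S, s.card = k) ∧ Bent S ∧ HasAffineDerivative S) := by
  have hAB : ∀ k : ℕ, (∃ (n : ℕ) (S : Finset (Finset (Fin n))),
        (∀ s ∈ S, s.card = k) ∧ Bent S ∧ HasAffineDerivative S) → ∃ a : ℕ, k = 2 ^ a + 1 := by
    rintro k ⟨n, S, hS, hb, ha⟩
    exact affine_pow hS hb ha
  refine ⟨fun n k S hS a R e h => partA hS h, fun n k S hS hb a ha => ?_, fun k => ⟨?_, ?_⟩,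
    fun k => ⟨?_, hAB k⟩⟩
  · obtain ⟨R, hR⟩ := exists_R S a
    have hne : R.Nonempty := by
      rw [nonempty_iff_ne_empty]
      rintro rfl
      exact nonconst hb ha 0 fun x => by rw [hR x]; simp [anf]
    obtain ⟨U, hU, hmax⟩ := exists_max_image R card hne
    have hd : DerivDegree S a R U.card := ⟨hR, hmax, U, hU, rfl⟩
    obtain ⟨j, hj⟩ := partA hS hd
    refine ⟨R, U.card, j, hd, ?_, hj⟩
    by_contra h0
    have hU0 : U.card = 0 := by omega
    have hR0 : R = {∅} := by
      ext V
      rw [mem_singleton]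
      constructor
      · intro hV
        have := hmax V hV
        rw [hU0] at this
        exact card_eq_zero.1 (by omega)
      · rintro rfl
        rw [card_eq_zero.1 hU0] at hU
        exact hU
    exact nonconst hb ha 1 fun x => by rw [hR x, hR0]; simp [anf]
  · rintro ⟨a, rfl⟩
    exact exists_affine a
  · rintro ⟨N, -, h⟩
    obtain ⟨S, hS⟩ := h (2 * N + 2) (by omega) ⟨N + 1, by ring⟩
    exact hAB k ⟨_, S, hS⟩
  · rintro ⟨a, rfl⟩
    obtain ⟨N, -, h⟩ := exists_affine a
    obtain ⟨S, hS⟩ := h (2 * N + 2) (by omega) ⟨N + 1, by ring⟩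
    exact ⟨_, S, hS⟩

end Pool.Agent.Results.MP_47443c_co.DerivativeDegrees
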